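import Mathlib
import Pool.Agent.Work.MP_ac1d8d_gt.Defs
import Pool.Agent.Work.MP_ac1d8d_gt.Final
import Pool.Agent.Work.MP_ac1d8d_gt.Inf

/-!
There are a surface of infinite type and an area form on it for which the group of all area
preserving diffeomorphisms is perfect.
-/

set_option linter.all false
set_option autoImplicit false

namespace Pool.Agent.Results.MP_ac1d8d_gt.PerfectAreaDiff

open Pool.Agent.Work.MP_ac1d8d_gt

theorem result : ∃ (S : Type) (_ : TopologicalSpace S) (_ : ChartedSpace ℂ S),
    IsSurface S ∧ InfiniteType S ∧ ∃ η : AreaForm S, commutator (AreaDiff S η) = ⊤ :=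
  ⟨Surf, inferInstance, inferInstance, isSurface_surf, surf_not_fg, surfForm, perfect_areaDiff⟩

end Pool.Agent.Results.MP_ac1d8d_gt.PerfectAreaDiff
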